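import Pool.Agent.Work.MP_e487d8_al.Y.Fin.Wt
import Pool.Agent.Work.MP_e487d8_al.Bd.B05

/-! MP_e487d8_al, block Fin: isomorphism classes of simple modules, the character determines the
simple module, linear independence of characters. -/

set_option autoImplicit false

open Pool.Agent.E487.Hopf

namespace Pool.Agent.KLS

variable {K I : Type} [Field K] [Fintype I] [DecidableEq I]

/-! ### no strands -/

/-- the augmentation -/
noncomputable def aug (D : Datum K I) : KLRAlg D →ₐ[K] K :=
  liftHom (D := D) (e := fun _ _ => 0) (x := fun _ => 0) (t := fun _ => 0)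
    { ee := by intros; split_ifs <;> simp
      ee_comm := by intros; simp
      xx := by intros; simp
      xe := by intros; simp
      xE := by intros; simp
      tE := by intros; simp
      tE' := by intros; simp
      te0 := by intros; simp
      te1 := by intros; simp
      te := by intros; simp
      tx := by intros; simp
      tx0 := by intros; simp
      tx1 := by intros; simp
      tt := by intros; simp
      far := by intros; simp
      braid := by intros; simp }

section

variable {D : Datum K I} {M : Type} [AddCommGroup M] [Module K M]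
  [Module (KLRAlg D) M] [IsScalarTower K (KLRAlg D) M]

theorem smul_eq_aug (hM : IsStrand D 0 M) (a : KLRAlg D) (u : M) : a • u = aug D a • u := by
  induction a using KLRAlg.induction generalizing u with
  | hs r => rw [AlgHom.commutes, algebraMap_smul]; rfl
  | hadd a b ha hb => rw [add_smul, map_add, add_smul, ha, hb]
  | hmul a b ha hb => rw [mul_smul, map_mul, mul_smul, hb, ha]
  | he k i => rw [hM.zero k (Nat.zero_le _), aug, liftHom_e, zero_smul]
  | hx k => rw [hM.x_smul_zero (Nat.zero_le _), aug, liftHom_x, zero_smul]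
  | ht k => rw [hM.t_smul_zero (Nat.zero_le _), aug, liftHom_t, zero_smul]

theorem finrank_one_of_strand (hM : IsStrand D 0 M) [IsSimpleModule (KLRAlg D) M] :
    Module.finrank K M = 1 := by
  have := IsSimpleModule.nontrivial (KLRAlg D) M
  obtain ⟨v, hv⟩ := exists_ne (0 : M)
  refine finrank_eq_one v hv fun w => ?_
  obtain ⟨a, ha⟩ := IsSimpleModule.toSpanSingleton_surjective (KLRAlg D) hv w
  refine ⟨aug D a, ?_⟩
  rw [← ha]
  exact (smul_eq_aug hM a v).symm

end

namespace SMod

variable {D : Datum K I}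

theorem iso_of_zero {X Y : SMod D} (hX : X.n = 0) (hY : Y.n = 0) : X.Iso Y := by
  have sX : IsStrand D 0 X.M := by rw [← hX]; exact X.smp.strand
  have sY : IsStrand D 0 Y.M := by rw [← hY]; exact Y.smp.strand
  have f : X.M ≃ₗ[K] Y.M := LinearEquiv.ofFinrankEq X.M Y.M
    ((finrank_one_of_strand sX).trans (finrank_one_of_strand sY).symm)
  exact ⟨{ f with
    map_smul' := fun a u => by
      show f (a • u) = a • f u
      rw [smul_eq_aug sX, map_smul, smul_eq_aug sY] }⟩

/-! ### `Emax` -/

theorem Emax.ex {i : I} {a : ℕ} {X Y : SMod D} (h : Emax i a X Y) :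
    ∃ ν, X.ch (List.replicate a i ++ ν) ≠ 0 := by
  obtain ⟨ν, hν⟩ := Y.exists_ch_ne
  exact ⟨ν, by rw [h.2.1]; exact Nat.mul_ne_zero (Nat.factorial_ne_zero a) hν⟩

omit [DecidableEq I] [Fintype I] in
theorem replicate_append {a b : ℕ} (h : a < b) (i : I) (ν : List I) :
    List.replicate b i ++ ν = List.replicate a i ++ (i :: (List.replicate (b - a - 1) i ++ ν)) := by
  have h1 : b = a + ((b - a - 1) + 1) := by omega
  conv_lhs => rw [h1, List.replicate_add, List.replicate_succ]
  rw [List.append_assoc]
  rfl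

theorem Emax.zero {i : I} {a b : ℕ} {X Y : SMod D} (h : Emax i a X Y) (hb : a < b) (ν : List I) :
    X.ch (List.replicate b i ++ ν) = 0 := by
  rw [replicate_append hb, h.2.1, h.2.2, mul_zero]

theorem Emax.unique {i : I} {a b : ℕ} {X Y X' Y' : SMod D} (hX : X.ch = X'.ch)
    (h : Emax i a X Y) (h' : Emax i b X' Y') : a = b ∧ Y.ch = Y'.ch := by
  have hab : a = b := by
    rcases lt_trichotomy a b with h1 | h1 | h1
    · exfalso
      obtain ⟨ν, hν⟩ := h'.ex
      rw [← hX, h.zero h1] at hν
      exact hν rfl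
    · exact h1
    · exfalso
      obtain ⟨ν, hν⟩ := h.ex
      rw [hX, h'.zero h1] at hν
      exact hν rfl
  subst hab
  refine ⟨rfl, funext fun ν => ?_⟩
  have h1 := h.2.1 ν
  rw [hX, h'.2.1 ν] at h1
  exact (Nat.eq_of_mul_eq_mul_left (Nat.factorial_pos a) h1).symm

theorem Emax.congr {i : I} {a : ℕ} {X Y X' Y' : SMod D} (hX : X.ch = X'.ch) (hY : Y.ch = Y'.ch)
    (h : Emax i a X Y) : Emax i a X' Y' := by
  refine ⟨?_, fun ν => ?_, fun ν => ?_⟩
  · rw [← n_eq_of_ch hX, ← n_eq_of_ch hY]; exact h.1
  · rw [← hX, ← hY]; exact h.2.1 ν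
  · rw [← hY]; exact h.2.2 ν

theorem quo_congr {X X' Y Y' Z Z' : SMod D} (hX : X.Iso X') (hY : Y.Iso Y') (hZ : Z.Iso Z')
    (h : Quo D Z.M (X.conv Y)) : Quo D Z'.M (X'.conv Y') := by
  obtain ⟨f, hf⟩ := h
  have hn := n_eq_of_iso hX
  obtain ⟨gX⟩ := hX
  obtain ⟨gY⟩ := hY
  obtain ⟨gZ⟩ := hZ
  refine ⟨gZ.toLinearMap.comp (f.comp (Conv.map hn.symm gX.symm.toLinearMap
    gY.symm.toLinearMap)), ?_⟩
  rw [LinearMap.coe_comp, LinearMap.coe_comp]
  exact gZ.surjective.comp (hf.comp (Conv.map_surjective hn.symm _ _ gX.symm.surjective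
    gY.symm.surjective))

/-- the character determines the simple module -/
theorem iso_of_ch {Lp : I → ℕ → SMod D} (hC : CFacts D Lp) : ∀ (n : ℕ) {X Y : SMod D},
    X.n = n → X.ch = Y.ch → X.Iso Y := by
  intro n
  induction n using Nat.strong_induction_on with
  | _ n ih =>
    intro X Y hn h
    by_cases h0 : n = 0
    · exact iso_of_zero (hn.trans h0) ((n_eq_of_ch h).symm.trans (hn.trans h0))
    · obtain ⟨ν, hν⟩ := X.exists_ch_ne
      have hl := X.ch_length hν
      cases ν with
      | nil =>
        exfalso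
        rw [List.length_nil] at hl
        omega
      | cons i ν =>
        obtain ⟨a, X₁, h1, h2⟩ := hC.res i X
        obtain ⟨b, Y₁, h3, h4⟩ := hC.res i Y
        obtain ⟨rfl, h5⟩ := h1.unique h h3
        have ha : 0 < a := by
          by_contra ha
          have ha' : a = 0 := by omega
          subst ha'
          have h6 := h1.zero (b := 1) (by norm_num) ν
          exact hν h6
        have h6 : X₁.Iso Y₁ := ih X₁.n (by have := h1.1; omega) rfl h5
        exact hC.hd_iso i a X₁ X Y h2 (quo_congr (Iso.refl _) h6.symm (Iso.refl _) h4)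

end SMod

/-! ### classes -/

/-- isomorphism classes of simple modules, given by their characters -/
def Sm (D : Datum K I) : Type := {f : List I → ℕ // ∃ X : SMod D, X.ch = f}

namespace Sm

variable {D : Datum K I}

/-- a representative -/
noncomputable def rep (X : Sm D) : SMod D := X.2.choose

theorem ch_rep (X : Sm D) : X.rep.ch = X.1 := X.2.choose_spec

/-- the class -/
noncomputable def cls (X : SMod D) : Sm D := ⟨X.ch, X, rfl⟩

theorem cls_rep (X : Sm D) : cls X.rep = X := Subtype.ext X.ch_rep

theorem ch_rep_cls (X : SMod D) : (cls X).rep.ch = X.ch := (cls X).ch_rep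

theorem ext' {X Y : Sm D} (h : ∀ ν, X.1 ν = Y.1 ν) : X = Y := Subtype.ext (funext h)

/-- the character as an element of the shuffle ring -/
def chq (X : Sm D) : Sh I ℚ := fun w => (X.1 w : ℚ)

theorem chq_inj {X Y : Sm D} (h : chq X = chq Y) : X = Y :=
  ext' fun ν => by
    have h1 : (X.1 ν : ℚ) = Y.1 ν := congrFun h ν
    exact_mod_cast h1

/-- the number of strands -/
noncomputable def len (X : Sm D) : ℕ := X.rep.n

theorem length_of_ne {X : Sm D} {ν : List I} (h : X.1 ν ≠ 0) : ν.length = X.len := by
  rw [← X.ch_rep] at h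
  exact X.rep.ch_length h

theorem exists_ne (X : Sm D) : ∃ ν, X.1 ν ≠ 0 := by
  rw [← X.ch_rep]
  exact X.rep.exists_ch_ne

section crys

variable {Lp : I → ℕ → SMod D} (hC : CFacts D Lp)

/-- `ε_i` -/
noncomputable def eps (i : I) (X : Sm D) : ℕ := (hC.res i X.rep).choose

/-- `e_i^max` -/
noncomputable def E (i : I) (X : Sm D) : Sm D := cls (hC.res i X.rep).choose_spec.choose

theorem emax (i : I) (X : Sm D) : SMod.Emax i (eps hC i X) X.rep (E hC i X).rep :=
  (hC.res i X.rep).choose_spec.choose_spec.1.congr rfl (ch_rep_cls _).symm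

theorem ch_eps (i : I) (X : Sm D) (ν : List I) :
    X.1 (List.replicate (eps hC i X) i ++ ν) = (eps hC i X).factorial * (E hC i X).1 ν := by
  have h := (emax hC i X).2.1 ν
  rwa [ch_rep, ch_rep] at h

theorem E_cons (i : I) (X : Sm D) (ν : List I) : (E hC i X).1 (i :: ν) = 0 := by
  have h := (emax hC i X).2.2 ν
  rwa [ch_rep] at h

theorem ch_zero (i : I) (X : Sm D) {b : ℕ} (hb : eps hC i X < b) (ν : List I) :
    X.1 (List.replicate b i ++ ν) = 0 := by
  have h := (emax hC i X).zero hb ν
  rwa [ch_rep] at h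

theorem eps_E_of_emax {i : I} {a : ℕ} {X Y : Sm D} (h : SMod.Emax i a X.rep Y.rep) :
    eps hC i X = a ∧ E hC i X = Y := by
  obtain ⟨h1, h2⟩ := (emax hC i X).unique rfl h
  refine ⟨h1, ext' fun ν => ?_⟩
  rw [ch_rep, ch_rep] at h2
  rw [h2]

include hC in
theorem iso_rep {X Y : SMod D} (h : X.ch = Y.ch) : X.Iso Y := SMod.iso_of_ch hC X.n rfl h

/-- `X` is a quotient of `L(i^a) ∘ E_i X` -/
theorem quo_rep (i : I) (X : Sm D) :
    Quo D X.rep.M ((Lp i (eps hC i X)).conv (E hC i X).rep) := by
  have h := (hC.res i X.rep).choose_spec.choose_spec.2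
  exact SMod.quo_congr (SMod.Iso.refl _) (iso_rep hC (ch_rep_cls _).symm) (SMod.Iso.refl _) h

theorem eps_inj {i : I} {X Y : Sm D} (h : eps hC i X = eps hC i Y) (h' : E hC i X = E hC i Y) :
    X = Y := by
  have h1 := quo_rep hC i X
  have h2 := quo_rep hC i Y
  rw [← h, ← h'] at h2
  have h3 := hC.hd_iso i _ _ _ _ h1 h2
  rw [← cls_rep X, ← cls_rep Y]
  exact Subtype.ext (SMod.ch_iso h3)

theorem exists_quo {M : Type} [AddCommGroup M] [Module K M] [Module (KLRAlg D) M]
    [IsScalarTower K (KLRAlg D) M] {n : ℕ} (hM : FdMod D n M) [Nontrivial M] :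
    ∃ Z : SMod D, Z.n = n ∧ Quo D Z.M M := by
  have := hM.fd
  have : IsNoetherian (KLRAlg D) M := isNoetherian_of_tower K inferInstance
  obtain ⟨P, hP⟩ := IsCoatomic.exists_coatom (Submodule (KLRAlg D) M)
  refine ⟨⟨n, M ⧸ P, ⟨hM.quot P, ?_⟩⟩, rfl, P.mkQ, P.mkQ_surjective⟩
  exact isSimpleModule_iff_isCoatom.2 hP

theorem len_E (i : I) (X : Sm D) : X.len = eps hC i X + (E hC i X).len := (emax hC i X).1

theorem E_of_eps {i : I} {X : Sm D} (h : eps hC i X = 0) : E hC i X = X := by
  refine ext' fun ν => ?_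
  have h1 := ch_eps hC i X ν
  rw [h] at h1
  simpa using h1.symm

theorem eps_E (i : I) (X : Sm D) : eps hC i (E hC i X) = 0 := by
  refine (eps_E_of_emax hC (Y := E hC i X) ⟨(Nat.zero_add _).symm, fun ν => ?_, fun ν => ?_⟩).1
  · simp
  · rw [ch_rep]; exact E_cons hC i X ν

theorem eps_pos_of_ne {i : I} {X : Sm D} {ν : List I} (h : X.1 (i :: ν) ≠ 0) :
    0 < eps hC i X := by
  by_contra h1
  have h2 := ch_zero hC i X (b := 1) (by omega) ν
  exact h h2

include hC in
/-- linear independence of characters, key step -/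
theorem indep_aux : ∀ (n : ℕ) (s : Finset (Sm D)) (F : Sm D → Sm D) (c : Sm D → ℚ),
    Set.InjOn F s → (∀ Y ∈ s, (F Y).len = n) → (∀ w, ∑ Y ∈ s, c Y * ((F Y).1 w : ℚ) = 0) →
    ∀ Y ∈ s, c Y = 0 := by
  classical
  intro n
  induction n using Nat.strong_induction_on with
  | _ n ih =>
    intro s F c hF hn hsum Y₀ hY₀
    by_contra hc
    by_cases h0 : n = 0
    · obtain ⟨ν, hν⟩ := (F Y₀).exists_ne
      have h1 : ∀ Y ∈ s, Y = Y₀ := by
        intro Y hY
        refine hF hY hY₀ ?_
        have h2 : (F Y).rep.Iso (F Y₀).rep :=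
          SMod.iso_of_zero ((hn Y hY).trans h0) ((hn Y₀ hY₀).trans h0)
        rw [← cls_rep (F Y), ← cls_rep (F Y₀)]
        exact Subtype.ext (SMod.ch_iso h2)
      have h2 := hsum ν
      rw [Finset.sum_eq_single Y₀ (fun Y hY hne => absurd (h1 Y hY) hne)
        (fun h => absurd hY₀ h)] at h2
      rcases mul_eq_zero.1 h2 with h3 | h3
      · exact hc h3
      · exact hν (by exact_mod_cast h3)
    · obtain ⟨ν, hν⟩ := (F Y₀).exists_ne
      have hl := length_of_ne hν
      rw [hn Y₀ hY₀] at hl
      cases ν with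
      | nil => rw [List.length_nil] at hl; omega
      | cons i ν =>
        have hpos := eps_pos_of_ne hC hν
        set t := s.filter fun Y => c Y ≠ 0 with ht
        have hY₀t : Y₀ ∈ t := Finset.mem_filter.2 ⟨hY₀, hc⟩
        obtain ⟨Y₁, hY₁, hmax⟩ := Finset.exists_max_image t (fun Y => eps hC i (F Y)) ⟨Y₀, hY₀t⟩
        set a := eps hC i (F Y₁) with ha
        have hapos : 0 < a := lt_of_lt_of_le hpos (hmax Y₀ hY₀t)
        set t' := t.filter fun Y => eps hC i (F Y) = a with ht'
        have ht's : ∀ Y ∈ t', Y ∈ s ∧ c Y ≠ 0 ∧ eps hC i (F Y) = a := by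
          intro Y hY
          rw [ht', Finset.mem_filter, ht, Finset.mem_filter] at hY
          exact ⟨hY.1.1, hY.1.2, hY.2⟩
        have key := ih (n - a) (by omega) t' (fun Y => E hC i (F Y)) c ?_ ?_ ?_ Y₁
          (by rw [ht', Finset.mem_filter]; exact ⟨hY₁, ha.symm⟩)
        · exact (Finset.mem_filter.1 hY₁).2 key
        · intro Y hY Z hZ hYZ
          obtain ⟨g1, _, g3⟩ := ht's Y hY
          obtain ⟨k1, _, k3⟩ := ht's Z hZ
          exact hF g1 k1 (eps_inj hC (g3.trans k3.symm) hYZ)
        · intro Y hY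
          obtain ⟨g1, _, g3⟩ := ht's Y hY
          have := len_E hC i (F Y)
          rw [hn Y g1, g3] at this
          show (E hC i (F Y)).len = n - a
          omega
        · intro w
          have h1 := hsum (List.replicate a i ++ w)
          have h2 : ∑ Y ∈ s, c Y * ((F Y).1 (List.replicate a i ++ w) : ℚ) =
              ∑ Y ∈ t', c Y * ((F Y).1 (List.replicate a i ++ w) : ℚ) := by
            symm
            refine Finset.sum_subset (fun Y hY => (ht's Y hY).1) ?_
            intro Y hY hYt'
            by_cases hcY : c Y = 0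
            · rw [hcY, zero_mul]
            · have hYt : Y ∈ t := Finset.mem_filter.2 ⟨hY, hcY⟩
              have h3 : eps hC i (F Y) < a := by
                refine lt_of_le_of_ne (hmax Y hYt) fun h => hYt' ?_
                rw [ht', Finset.mem_filter]
                exact ⟨hYt, h⟩
              rw [ch_zero hC i (F Y) h3, Nat.cast_zero, mul_zero]
          rw [h2] at h1
          have h3 : ∑ Y ∈ t', c Y * ((F Y).1 (List.replicate a i ++ w) : ℚ) =
              (a.factorial : ℚ) * ∑ Y ∈ t', c Y * ((E hC i (F Y)).1 w : ℚ) := by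
            rw [Finset.mul_sum]
            refine Finset.sum_congr rfl fun Y hY => ?_
            obtain ⟨_, _, g3⟩ := ht's Y hY
            have h4 := ch_eps hC i (F Y) w
            rw [g3] at h4
            rw [h4]
            push_cast
            ring
          rw [h3] at h1
          rcases mul_eq_zero.1 h1 with h4 | h4
          · exact absurd h4 (by exact_mod_cast Nat.factorial_ne_zero a)
          · exact h4

include hC in
/-- the characters of the simple modules are linearly independent -/
theorem indep : LinearIndependent ℚ (chq : Sm D → Sh I ℚ) := by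
  classical
  rw [linearIndependent_iff']
  intro s g hg X hX
  refine indep_aux hC X.len (s.filter fun Y => Y.len = X.len) id g (Function.injective_id.injOn)
    (fun Y hY => (Finset.mem_filter.1 hY).2) ?_ X (Finset.mem_filter.2 ⟨hX, rfl⟩)
  intro w
  have h1 : ∑ Y ∈ s, g Y * (Y.1 w : ℚ) = 0 := by
    have h2 := congrFun hg w
    have h3 : (∑ i ∈ s, g i • chq i) w = ∑ Y ∈ s, g Y * (Y.1 w : ℚ) := by
      have : ∀ t : Finset (Sm D), (∑ i ∈ t, g i • chq i) w = ∑ Y ∈ t, g Y * (Y.1 w : ℚ) := by
        intro t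
        induction t using Finset.induction_on with
        | empty => rfl
        | insert a t ha ih =>
          rw [Finset.sum_insert ha, Finset.sum_insert ha, Sh.add_apply, ih]
          rfl
      exact this s
    rw [h3] at h2
    exact h2
  rw [Finset.sum_filter]
  by_cases hw : w.length = X.len
  · refine (Finset.sum_congr rfl fun Y _ => ?_).trans h1
    split_ifs with h2
    · rfl
    · have h3 : Y.1 w = 0 := by
        by_contra h4
        exact h2 ((length_of_ne h4).symm.trans hw)
      rw [h3, Nat.cast_zero, mul_zero]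
  · refine Finset.sum_eq_zero fun Y _ => ?_
    split_ifs with h2
    · have h3 : Y.1 w = 0 := by
        by_contra h4
        exact hw ((length_of_ne h4).trans h2)
      show g Y * ((id Y).1 w : ℚ) = 0
      rw [id, h3, Nat.cast_zero, mul_zero]
    · rfl

end crys

end Sm

end Pool.Agent.KLS
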