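import Pool.Agent.Work.MP_e487d8_al.Y.Fin.Words
import Pool.Agent.Work.MP_e487d8_al.Y.Fin.Need

/-! MP_e487d8_al, block Fin: all words of a simple module have the same content; restriction to
the first or last strand; submodules and quotients. -/

set_option autoImplicit false

namespace Pool.Agent.KLS

variable {K I : Type} [Field K] [Fintype I] [DecidableEq I]

section

variable {D : Datum K I} {n : ℕ} {M : Type} [AddCommGroup M] [Module K M]
  [Module (KLRAlg D) M] [IsScalarTower K (KLRAlg D) M]

/-- the part of content `ν₀` -/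
def contP (hM : IsStrand D n M) (ν₀ : List I) : Submodule (KLRAlg D) M where
  carrier := {u | ∀ ν : List I, ν.length = n → ¬ ν.Perm ν₀ → D.eW ν • u = 0}
  add_mem' := by
    intro u v hu hv ν h1 h2
    rw [smul_add, hu ν h1 h2, hv ν h1 h2, add_zero]
  zero_mem' := by
    intro ν _ _
    rw [smul_zero]
  smul_mem' := by
    intro a
    induction a using KLRAlg.induction with
    | hs r =>
      intro u hu ν h1 h2
      rw [← mul_smul, ← Algebra.commutes, mul_smul, hu ν h1 h2, smul_zero]
    | he k i =>
      intro u hu ν h1 h2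
      rw [← mul_smul, ← D.e_eW, mul_smul, hu ν h1 h2, smul_zero]
    | hx k =>
      intro u hu ν h1 h2
      rw [← mul_smul, ← D.x_eW, mul_smul, hu ν h1 h2, smul_zero]
    | ht k =>
      intro u hu ν h1 h2
      by_cases hk : k + 1 < n
      · have h3 : D.eW ν * D.t k = D.t k * D.eW (sw k ν) := by
          have h4 := D.t_eW k (sw k ν) (by rw [(sw_perm k ν).length_eq, h1]; exact hk)
          rw [h4]
          congr 2
          have : ∀ (k : ℕ) (ν : List I), sw k (sw k ν) = ν := by
            intro k ν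
            induction ν generalizing k with
            | nil => cases k <;> rfl
            | cons i ν ih =>
              cases k with
              | zero => cases ν <;> rfl
              | succ k => exact congrArg (List.cons i) (ih k)
          exact (this k ν).symm
        rw [← mul_smul, h3, mul_smul, hu (sw k ν) ((sw_perm k ν).length_eq.trans h1)
          (fun h => h2 ((sw_perm k ν).symm.trans h)), smul_zero]
      · rw [hM.t_smul_zero (by omega), smul_zero]
    | hadd a b ha hb =>
      intro u hu ν h1 h2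
      rw [add_smul, smul_add, ha hu ν h1 h2, hb hu ν h1 h2, add_zero]
    | hmul a b ha hb =>
      intro u hu
      rw [mul_smul]
      exact ha (hb hu)

/-- all words of a simple module have the same content -/
theorem perm_of_simple (hM : IsStrand D n M) [FiniteDimensional K M]
    [IsSimpleModule (KLRAlg D) M] {ν μ : List I} (h1 : chr D n M ν ≠ 0) (h2 : chr D n M μ ≠ 0) :
    ν.Perm μ := by
  have l1 := chr_length h1
  have l2 := chr_length h2
  rw [chr_ne_zero_iff l1] at h1
  rw [chr_ne_zero_iff l2] at h2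
  obtain ⟨u, hu⟩ := h1
  obtain ⟨v, hv⟩ := h2
  have h3 : contP hM μ = ⊤ := by
    refine (IsSimpleOrder.eq_bot_or_eq_top (contP hM μ)).resolve_left fun h => ?_
    have h4 : D.eW μ • v ∈ contP hM μ := by
      intro ν' h5 h6
      rw [← mul_smul, D.eW_ne _ _ (h5.trans l2.symm) (fun h => h6 (by rw [h])), zero_smul]
    rw [h, Submodule.mem_bot] at h4
    exact hv h4
  by_contra h5
  have h6 : u ∈ contP hM μ := by rw [h3]; trivial
  exact hu (h6 ν l1 h5)

theorem FdMod.sub (hM : FdMod D n M) (P : Submodule (KLRAlg D) M) : FdMod D n P where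
  strand :=
    { one := fun k hk u => Subtype.ext (hM.strand.one k hk u)
      zero := fun k hk i u => Subtype.ext (hM.strand.zero k hk i u) }
  fd := by
    have := hM.fd
    have h : Function.Injective (Conv.toK P.subtype) := P.subtype_injective
    exact FiniteDimensional.of_injective (Conv.toK P.subtype) h
  nilp k := by
    obtain ⟨N, hN⟩ := hM.nilp k
    exact ⟨N, fun u => Subtype.ext (hN u)⟩

theorem FdMod.quot (hM : FdMod D n M) (P : Submodule (KLRAlg D) M) : FdMod D n (M ⧸ P) where
  strand :=
    { one := fun k hk u => by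
        obtain ⟨u, rfl⟩ := P.mkQ_surjective u
        rw [← map_smul, hM.strand.one k hk]
      zero := fun k hk i u => by
        obtain ⟨u, rfl⟩ := P.mkQ_surjective u
        rw [← map_smul, hM.strand.zero k hk, map_zero] }
  fd := by
    have := hM.fd
    exact Module.Finite.of_surjective (Conv.toK P.mkQ) P.mkQ_surjective
  nilp k := by
    obtain ⟨N, hN⟩ := hM.nilp k
    refine ⟨N, fun u => ?_⟩
    obtain ⟨u, rfl⟩ := P.mkQ_surjective u
    rw [← map_smul, hN, map_zero]

/-- restriction: the first strand has colour `i`, the other strands act -/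
def resL (D : Datum K I) (M : Type) [AddCommGroup M] [Module K M] [Module (KLRAlg D) M]
    [IsScalarTower K (KLRAlg D) M] (i : I) : Submodule (KLRAlg D) (Tw (D.shn 1) M) where
  carrier := {u | D.e 0 i • (Tw.mk (D.shn 1)).symm u = (Tw.mk (D.shn 1)).symm u}
  add_mem' := by
    intro u v hu hv
    rw [Set.mem_ofPred_eq] at hu hv ⊢
    rw [map_add, smul_add, hu, hv]
  zero_mem' := by
    rw [Set.mem_ofPred_eq, map_zero, smul_zero]
  smul_mem' := by
    intro a u hu
    rw [Set.mem_ofPred_eq] at hu ⊢
    show D.e 0 i • (D.shn 1 a • (Tw.mk (D.shn 1)).symm u) = D.shn 1 a • (Tw.mk (D.shn 1)).symm u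
    rw [← mul_smul, D.e0_shn, mul_smul, hu]

/-- restriction: the last strand has colour `i`, the other strands act -/
def resR (D : Datum K I) (n : ℕ) (M : Type) [AddCommGroup M] [Module K M] [Module (KLRAlg D) M]
    [IsScalarTower K (KLRAlg D) M] (i : I) : Submodule (KLRAlg D) (Tw (D.tr n) M) where
  carrier := {u | D.e n i • (Tw.mk (D.tr n)).symm u = (Tw.mk (D.tr n)).symm u}
  add_mem' := by
    intro u v hu hv
    rw [Set.mem_ofPred_eq] at hu hv ⊢
    rw [map_add, smul_add, hu, hv]
  zero_mem' := by
    rw [Set.mem_ofPred_eq, map_zero, smul_zero]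
  smul_mem' := by
    intro a u hu
    rw [Set.mem_ofPred_eq] at hu ⊢
    show D.e n i • (D.tr n a • (Tw.mk (D.tr n)).symm u) = D.tr n a • (Tw.mk (D.tr n)).symm u
    have h := D.tr_mul_shn (le_refl n) a (D.e 0 i)
    rw [D.shn_e, add_zero] at h
    rw [← mul_smul, ← h, mul_smul, hu]

theorem fd_resL (hM : FdMod D (n + 1) M) (i : I) : FdMod D n (resL D M i) where
  strand :=
    { one := fun k hk u => Subtype.ext (by
        show D.shn 1 (D.E k) • (Tw.mk (D.shn 1)).symm u.1 = (Tw.mk (D.shn 1)).symm u.1
        rw [D.shn_E, hM.strand.one (1 + k) (by omega)])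
      zero := fun k hk j u => Subtype.ext (by
        show D.shn 1 (D.e k j) • (Tw.mk (D.shn 1)).symm u.1 = 0
        rw [D.shn_e, hM.strand.zero (1 + k) (by omega)]) }
  fd := by
    have := hM.fd
    have h : Function.Injective (Conv.toK (resL D M i).subtype) := (resL D M i).subtype_injective
    exact FiniteDimensional.of_injective (Conv.toK (resL D M i).subtype) h
  nilp k := by
    obtain ⟨N, hN⟩ := hM.nilp (1 + k)
    refine ⟨N, fun u => Subtype.ext ?_⟩
    show D.shn 1 (D.x k ^ N) • (Tw.mk (D.shn 1)).symm u.1 = 0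
    rw [map_pow, D.shn_x, hN]

theorem fd_resR (hM : FdMod D (n + 1) M) (i : I) : FdMod D n (resR D n M i) where
  strand :=
    { one := fun k hk u => Subtype.ext (by
        show D.tr n (D.E k) • (Tw.mk (D.tr n)).symm u.1 = (Tw.mk (D.tr n)).symm u.1
        rw [D.tr_E, if_pos hk, hM.strand.one k (by omega)])
      zero := fun k hk j u => Subtype.ext (by
        show D.tr n (D.e k j) • (Tw.mk (D.tr n)).symm u.1 = 0
        rw [D.tr_e, if_neg (by omega), zero_smul]) }
  fd := by
    have := hM.fd
    have h : Function.Injective (Conv.toK (resR D n M i).subtype) :=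
      (resR D n M i).subtype_injective
    exact FiniteDimensional.of_injective (Conv.toK (resR D n M i).subtype) h
  nilp k := by
    by_cases hk : k < n
    · obtain ⟨N, hN⟩ := hM.nilp k
      refine ⟨N, fun u => Subtype.ext ?_⟩
      show D.tr n (D.x k ^ N) • (Tw.mk (D.tr n)).symm u.1 = 0
      rw [map_pow, D.tr_x, if_pos hk, hN]
    · refine ⟨1, fun u => Subtype.ext ?_⟩
      show D.tr n (D.x k ^ 1) • (Tw.mk (D.tr n)).symm u.1 = 0
      rw [pow_one, D.tr_x, if_neg hk, zero_smul]

theorem chr_resL (i : I) (ν : List I) :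
    chr D n (resL D M i) ν = chr D (n + 1) M (i :: ν) := by
  by_cases h : ν.length = n
  · rw [chr_eq h, chr_eq (by rw [List.length_cons, h])]
    set g : wordSp D (resL D M i) ν →ₗ[K] M := ((Tw.mk (D.shn 1)).symm.toLinearMap.comp
      ((Conv.toK (resL D M i).subtype).comp (wordSp D (resL D M i) ν).subtype)) with hg
    have hginj : Function.Injective g := by
      intro u v huv
      have h3 := (Tw.mk (D.shn 1)).symm.injective huv
      exact Subtype.ext (Subtype.ext h3)
    have hgr : LinearMap.range g = wordSp D M (i :: ν) := by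
      ext u
      constructor
      · rintro ⟨v, rfl⟩
        have hv := v.1.2
        have hv' := mem_wordSp.1 v.2
        rw [mem_wordSp]
        have h5 : D.shn 1 (D.eW ν) • (Tw.mk (D.shn 1)).symm v.1.1 = (Tw.mk (D.shn 1)).symm v.1.1 :=
          congrArg (fun z : resL D M i => (z : Tw (D.shn 1) M)) hv'
        show D.eW (i :: ν) • (Tw.mk (D.shn 1)).symm v.1.1 = (Tw.mk (D.shn 1)).symm v.1.1
        rw [D.eW_cons, mul_smul, h5]
        exact hv
      · intro hu
        rw [mem_wordSp] at hu
        have h4 : D.e 0 i • u = u := by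
          conv_lhs => rw [← hu]
          rw [D.eW_cons, ← mul_smul, ← mul_assoc, D.e_idem, ← D.eW_cons, hu]
        have h5 : D.shn 1 (D.eW ν) • u = u := by
          conv_lhs => rw [← hu]
          rw [D.eW_cons, ← mul_smul, ← mul_assoc, ← D.e0_shn, mul_assoc, ← map_mul, D.eW_idem,
            ← D.eW_cons, hu]
        refine ⟨⟨⟨Tw.mk (D.shn 1) u, h4⟩, ?_⟩, rfl⟩
        rw [mem_wordSp]
        refine Subtype.ext ?_
        show D.eW ν • Tw.mk (D.shn 1) u = Tw.mk (D.shn 1) u
        rw [Tw.smul_mk, h5]
    rw [← LinearMap.finrank_range_of_inj hginj, hgr]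
  · rw [chr_of_ne h, chr_of_ne (by rw [List.length_cons]; omega)]

theorem chr_resR (i : I) (ν : List I) :
    chr D n (resR D n M i) ν = chr D (n + 1) M (ν ++ [i]) := by
  by_cases h : ν.length = n
  · rw [chr_eq h, chr_eq (by rw [List.length_append, h]; rfl)]
    set g : wordSp D (resR D n M i) ν →ₗ[K] M := ((Tw.mk (D.tr n)).symm.toLinearMap.comp
      ((Conv.toK (resR D n M i).subtype).comp (wordSp D (resR D n M i) ν).subtype)) with hg
    have hginj : Function.Injective g := by
      intro u v huv
      have h3 := (Tw.mk (D.tr n)).symm.injective huv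
      exact Subtype.ext (Subtype.ext h3)
    have hgr : LinearMap.range g = wordSp D M (ν ++ [i]) := by
      ext u
      constructor
      · rintro ⟨v, rfl⟩
        have hv : D.e n i • (Tw.mk (D.tr n)).symm v.1.1 = (Tw.mk (D.tr n)).symm v.1.1 := v.1.2
        have hv' := mem_wordSp.1 v.2
        rw [mem_wordSp]
        have h5 : D.tr n (D.eW ν) • (Tw.mk (D.tr n)).symm v.1.1 = (Tw.mk (D.tr n)).symm v.1.1 :=
          congrArg (fun z : resR D n M i => (z : Tw (D.tr n) M)) hv'
        rw [D.tr_eW ν h.le] at h5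
        show D.eW (ν ++ [i]) • (Tw.mk (D.tr n)).symm v.1.1 = (Tw.mk (D.tr n)).symm v.1.1
        rw [D.eW_snoc, h, mul_smul, hv, h5]
      · intro hu
        rw [mem_wordSp, D.eW_snoc, h] at hu
        have h4 : D.e n i • u = u := by
          conv_lhs => rw [← hu]
          rw [← mul_smul, ← mul_assoc, D.e_eW, mul_assoc, D.e_idem, hu]
        have h5 : D.eW ν • u = u := by
          conv_lhs => rw [← hu]
          rw [← mul_smul, ← mul_assoc, D.eW_idem, hu]
        refine ⟨⟨⟨Tw.mk (D.tr n) u, h4⟩, ?_⟩, rfl⟩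
        rw [mem_wordSp]
        refine Subtype.ext ?_
        show D.eW ν • Tw.mk (D.tr n) u = Tw.mk (D.tr n) u
        rw [Tw.smul_mk, D.tr_eW ν h.le, h5]
    rw [← LinearMap.finrank_range_of_inj hginj, hgr]
  · rw [chr_of_ne h, chr_of_ne (by rw [List.length_append]; simp only [List.length_singleton]; omega)]

end

namespace SMod

variable {D : Datum K I}

instance (X : SMod D) : FiniteDimensional K X.M := X.smp.fd

instance (X : SMod D) : IsSimpleModule (KLRAlg D) X.M := X.smp.simple

instance (X : SMod D) : Nontrivial X.M := IsSimpleModule.nontrivial (KLRAlg D) X.M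

theorem ch_congr {X Y : SMod D} (h : X.Iso Y) (hn : X.n = Y.n) : X.ch = Y.ch := by
  obtain ⟨f⟩ := h
  rw [ch, ch, hn]
  exact chr_congr f

theorem exists_ch_ne (X : SMod D) : ∃ ν, X.ch ν ≠ 0 := exists_chr_ne X.smp.strand

theorem ch_length (X : SMod D) {ν : List I} (h : X.ch ν ≠ 0) : ν.length = X.n := chr_length h

theorem ch_perm (X : SMod D) {ν μ : List I} (h : X.ch ν ≠ 0) (h' : X.ch μ ≠ 0) : ν.Perm μ :=
  perm_of_simple X.smp.strand h h'

/-- all words of a simple module have content `wt` -/
theorem count_eq_wt (X : SMod D) {ν : List I} (h : X.ch ν ≠ 0) (i : I) : ν.count i = X.wt i := by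
  have hex : ∃ ν, X.ch ν ≠ 0 := ⟨ν, h⟩
  rw [wt, dif_pos hex]
  exact (X.ch_perm h hex.choose_spec).count_eq i

/-- isomorphic modules have the same number of strands -/
theorem n_eq_of_iso {X Y : SMod D} (h : X.Iso Y) : X.n = Y.n := by
  obtain ⟨f⟩ := h
  have key : ∀ {X Y : SMod D}, (X.M ≃ₗ[KLRAlg D] Y.M) → ¬ X.n < Y.n := by
    intro X Y f hlt
    obtain ⟨u, hu⟩ := exists_ne (0 : X.M)
    have h1 := Y.smp.strand.one X.n hlt (f u)
    rw [← map_smul, X.smp.strand.E_smul_zero (le_refl _), map_zero] at h1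
    exact hu ((LinearEquiv.map_eq_zero_iff f).1 h1.symm)
  exact le_antisymm (not_lt.1 (key f.symm)) (not_lt.1 (key f))

theorem ch_iso {X Y : SMod D} (h : X.Iso Y) : X.ch = Y.ch := ch_congr h (n_eq_of_iso h)

theorem Iso.symm {X Y : SMod D} (h : X.Iso Y) : Y.Iso X := h.elim fun f => ⟨f.symm⟩

theorem Iso.trans {X Y Z : SMod D} (h : X.Iso Y) (h' : Y.Iso Z) : X.Iso Z :=
  h.elim fun f => h'.elim fun g => ⟨f.trans g⟩

theorem Iso.refl (X : SMod D) : X.Iso X := ⟨LinearEquiv.refl _ _⟩

theorem n_eq_of_ch {X Y : SMod D} (h : X.ch = Y.ch) : X.n = Y.n := by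
  obtain ⟨ν, hν⟩ := X.exists_ch_ne
  rw [← X.ch_length hν]
  rw [h] at hν
  exact Y.ch_length hν

theorem wt_eq_of_ch {X Y : SMod D} (h : X.ch = Y.ch) (i : I) : X.wt i = Y.wt i := by
  obtain ⟨ν, hν⟩ := X.exists_ch_ne
  rw [← X.count_eq_wt hν]
  rw [h] at hν
  exact Y.count_eq_wt hν i

end SMod

end Pool.Agent.KLS
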