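import Pool.Agent.Work.MP_e487d8_al.Y.Fin.Cls

/-! MP_e487d8_al, block Fin: composition multiplicities. -/

set_option autoImplicit false

open Pool.Agent.E487.Hopf

namespace Pool.Agent.KLS

variable {K I : Type} [Field K] [Fintype I] [DecidableEq I] {D : Datum K I}

theorem strand_unique {n m : ℕ} {M : Type} [AddCommGroup M] [Module (KLRAlg D) M] [Nontrivial M]
    (hn : IsStrand D n M) (hm : IsStrand D m M) : n = m := by
  have key : ∀ {n m : ℕ}, IsStrand D n M → IsStrand D m M → ¬ n < m := by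
    intro n m hn hm hlt
    obtain ⟨u, hu⟩ := exists_ne (0 : M)
    have h1 := hm.one n hlt u
    rw [hn.E_smul_zero (le_refl _)] at h1
    exact hu h1.symm
  exact le_antisymm (not_lt.1 (key hm hn)) (not_lt.1 (key hn hm))

section

variable {n : ℕ} {M : Type} [AddCommGroup M] [Module K M] [Module (KLRAlg D) M]
  [IsScalarTower K (KLRAlg D) M]

omit [IsScalarTower K (KLRAlg D) M] in
theorem quo_strand (hM : FdMod D n M) {Z : SMod D} (h : Quo D Z.M M) : Z.n = n := by
  obtain ⟨f, hf⟩ := h
  refine strand_unique (M := Z.M) Z.smp.strand ?_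
  exact
    { one := fun k hk u => by
        obtain ⟨u, rfl⟩ := hf u
        rw [← map_smul, hM.strand.one k hk]
      zero := fun k hk i u => by
        obtain ⟨u, rfl⟩ := hf u
        rw [← map_smul, hM.strand.zero k hk, map_zero] }

theorem chr_quo (hM : FdMod D n M) {Z : SMod D} (f : M →ₗ[KLRAlg D] Z.M)
    (hf : Function.Surjective f) (ν : List I) :
    chr D n M ν = chr D n (LinearMap.ker f) ν + Z.ch ν := by
  have := hM.fd
  rw [chr_add (LinearMap.ker f) ν, chr_congr (LinearMap.quotKerEquivOfSurjective f hf), SMod.ch,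
    quo_strand hM ⟨f, hf⟩]

theorem subQ_strand (hM : FdMod D n M) {Z : SMod D} (h : SubQ D Z.M M) : Z.n = n := by
  obtain ⟨N, f, hf⟩ := h
  exact quo_strand (hM.sub N) ⟨f, hf⟩

theorem chr_le_of_subQ (hM : FdMod D n M) {Z : SMod D} (h : SubQ D Z.M M) (ν : List I) :
    Z.ch ν ≤ chr D n M ν := by
  obtain ⟨N, f, hf⟩ := h
  have := hM.fd
  rw [chr_add N ν, chr_quo (hM.sub N) f hf]
  omega

omit [Module K M] [IsScalarTower K (KLRAlg D) M] in
theorem subQ_of_quo {Z : SMod D} (h : Quo D Z.M M) : SubQ D Z.M M := by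
  obtain ⟨f, hf⟩ := h
  refine ⟨⊤, f.comp (Submodule.topEquiv (R := KLRAlg D) (M := M)).toLinearMap, ?_⟩
  rw [LinearMap.coe_comp]
  exact hf.comp (Submodule.topEquiv (R := KLRAlg D) (M := M)).surjective

omit [Module K M] [IsScalarTower K (KLRAlg D) M] in
theorem subQ_of_sub {Z : SMod D} (P : Submodule (KLRAlg D) M) (h : SubQ D Z.M P) :
    SubQ D Z.M M := by
  obtain ⟨N, f, hf⟩ := h
  refine ⟨N.map P.subtype, f.comp
    (Submodule.equivMapOfInjective P.subtype P.subtype_injective N).symm.toLinearMap, ?_⟩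
  rw [LinearMap.coe_comp]
  exact hf.comp (LinearEquiv.surjective _)

omit [Module K M] [IsScalarTower K (KLRAlg D) M] in
theorem subQ_congr {Z Z' : SMod D} (h : Z.Iso Z') (h' : SubQ D Z.M M) : SubQ D Z'.M M := by
  obtain ⟨g⟩ := h
  obtain ⟨N, f, hf⟩ := h'
  refine ⟨N, g.toLinearMap.comp f, ?_⟩
  rw [LinearMap.coe_comp]
  exact g.surjective.comp hf

omit [Module K M] [IsScalarTower K (KLRAlg D) M] in
theorem quo_congr' {Z Z' : SMod D} (h : Z.Iso Z') (h' : Quo D Z.M M) : Quo D Z'.M M := by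
  obtain ⟨g⟩ := h
  obtain ⟨f, hf⟩ := h'
  refine ⟨g.toLinearMap.comp f, ?_⟩
  rw [LinearMap.coe_comp]
  exact g.surjective.comp hf

end

namespace Sm

variable {Lp : I → ℕ → SMod D} (hC : CFacts D Lp)

include hC in
theorem jh_aux : ∀ (d n : ℕ) (M : Type) [AddCommGroup M] [Module K M] [Module (KLRAlg D) M]
    [IsScalarTower K (KLRAlg D) M], FdMod D n M → Module.finrank K M = d →
    ∃ m : Sm D →₀ ℕ, (∀ ν, chr D n M ν = m.sum fun X k => k * X.1 ν) ∧
      ∀ X : Sm D, m X ≠ 0 → SubQ D X.rep.M M := by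
  classical
  intro d
  induction d using Nat.strong_induction_on with
  | _ d ih =>
    intro n M _ _ _ _ hM hd
    have := hM.fd
    by_cases hnt : Nontrivial M
    · obtain ⟨Z, hZn, f, hf⟩ := exists_quo hM
      have hlt : Module.finrank K (LinearMap.ker f) < d := by
        have h1 : Module.finrank K (LinearMap.ker (Conv.toK f)) + Module.finrank K Z.M = d := by
          have h2 := LinearMap.finrank_range_add_finrank_ker (Conv.toK f)
          have hr : LinearMap.range (Conv.toK f) = ⊤ := LinearMap.range_eq_top.2 hf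
          rw [hr, finrank_top] at h2
          omega
        have h3 : 0 < Module.finrank K Z.M := Module.finrank_pos
        have h4 : Module.finrank K (LinearMap.ker f) =
            Module.finrank K (LinearMap.ker (Conv.toK f)) := rfl
        omega
      obtain ⟨m, hm1, hm2⟩ := ih _ hlt n (LinearMap.ker f) (hM.sub _) rfl
      refine ⟨m + Finsupp.single (cls Z) 1, fun ν => ?_, fun X hX => ?_⟩
      · rw [chr_quo hM f hf, hm1, Finsupp.sum_add_index' (fun _ => zero_mul _)
          (fun _ _ _ => add_mul _ _ _), Finsupp.sum_single_index (zero_mul _), one_mul]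
        rfl
      · by_cases hmX : m X = 0
        · rw [Finsupp.add_apply, hmX, zero_add, Finsupp.single_apply] at hX
          have hXZ : cls Z = X := by
            by_contra h
            exact hX (if_neg h)
          rw [← hXZ]
          exact subQ_congr (iso_rep hC (ch_rep_cls Z)).symm (subQ_of_quo ⟨f, hf⟩)
        · exact subQ_of_sub _ (hm2 X hmX)
    · refine ⟨0, fun ν => ?_, fun X hX => absurd rfl hX⟩
      rw [not_nontrivial_iff_subsingleton] at hnt
      rw [Finsupp.sum_zero_index]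
      by_contra h
      have hl := chr_length h
      rw [← Ne, chr_ne_zero_iff hl] at h
      obtain ⟨u, hu⟩ := h
      exact hu (Subsingleton.elim _ _)

section

variable {n : ℕ} {M : Type} [AddCommGroup M] [Module K M] [Module (KLRAlg D) M]
  [IsScalarTower K (KLRAlg D) M]

/-- composition multiplicities -/
noncomputable def mult (hM : FdMod D n M) : Sm D →₀ ℕ :=
  (jh_aux hC (Module.finrank K M) n M hM rfl).choose

theorem chr_mult (hM : FdMod D n M) (ν : List I) :
    chr D n M ν = (mult hC hM).sum fun X k => k * X.1 ν :=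
  (jh_aux hC (Module.finrank K M) n M hM rfl).choose_spec.1 ν

theorem subQ_of_mult (hM : FdMod D n M) {X : Sm D} (h : mult hC hM X ≠ 0) :
    SubQ D X.rep.M M :=
  (jh_aux hC (Module.finrank K M) n M hM rfl).choose_spec.2 X h

/-- a natural combination of characters -/
noncomputable def comb (m : Sm D →₀ ℕ) : Sh I ℚ :=
  Finsupp.linearCombination ℚ chq (m.mapRange (fun k : ℕ => (k : ℚ)) Nat.cast_zero)

theorem comb_apply (m : Sm D →₀ ℕ) (ν : List I) :
    comb m ν = ((m.sum fun X k => k * X.1 ν : ℕ) : ℚ) := by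
  classical
  rw [comb, Finsupp.linearCombination_apply, Finsupp.sum_mapRange_index (by simp), Finsupp.sum,
    Finsupp.sum]
  push_cast
  have : ∀ t : Finset (Sm D), (∑ X ∈ t, ((m X : ℕ) : ℚ) • chq X) ν =
      ∑ X ∈ t, (m X : ℚ) * (X.1 ν : ℚ) := by
    intro t
    induction t using Finset.induction_on with
    | empty => rfl
    | insert a t ha ih =>
      rw [Finset.sum_insert ha, Finset.sum_insert ha, Sh.add_apply, ih]
      rfl
  exact this _

theorem comb_eq (m : Sm D →₀ ℕ) : comb m = m.sum fun X k => (k : ℚ) • chq X := by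
  rw [comb, Finsupp.linearCombination_apply, Finsupp.sum_mapRange_index (by simp)]

theorem comb_add (m m' : Sm D →₀ ℕ) : comb (m + m') = comb m + comb m' := by
  rw [comb, comb, comb, Finsupp.mapRange_add (by simp), map_add]

theorem comb_single (X : Sm D) : comb (Finsupp.single X 1) = chq X := by
  rw [comb, Finsupp.mapRange_single, Finsupp.linearCombination_single, Nat.cast_one, one_smul]

include hC in
theorem comb_inj {m m' : Sm D →₀ ℕ} (h : comb m = comb m') : m = m' := by
  have h1 := indep hC (D := D) h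
  exact Finsupp.mapRange_injective _ Nat.cast_zero Nat.cast_injective h1

theorem chrQ_mult (hM : FdMod D n M) : chrQ D n M = comb (mult hC hM) := by
  apply Sh.ext'
  intro ν
  rw [comb_apply, chrQ_apply, chr_mult hC hM]

theorem mult_unique (hM : FdMod D n M) {m : Sm D →₀ ℕ} (h : chrQ D n M = comb m) :
    mult hC hM = m := comb_inj hC ((chrQ_mult hC hM).symm.trans h)

theorem mult_quo (hM : FdMod D n M) {Z : SMod D} (f : M →ₗ[KLRAlg D] Z.M)
    (hf : Function.Surjective f) :
    mult hC hM = mult hC (hM.sub (LinearMap.ker f)) + Finsupp.single (cls Z) 1 := by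
  apply mult_unique
  rw [comb_add, comb_single, ← chrQ_mult]
  apply Sh.ext'
  intro ν
  rw [Sh.add_apply, chrQ_apply, chrQ_apply, chr_quo hM f hf, Nat.cast_add]
  rfl

theorem mult_ne_of_quo (hM : FdMod D n M) {Z : SMod D} (h : Quo D Z.M M) :
    mult hC hM (cls Z) ≠ 0 := by
  obtain ⟨f, hf⟩ := h
  rw [mult_quo hC hM f hf, Finsupp.add_apply, Finsupp.single_eq_same]
  omega

include hC in
/-- a module whose character is the character of a simple module is simple -/
theorem simple_of_chrQ (hM : FdMod D n M) {Z : Sm D} (h : chrQ D n M = chq Z) :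
    IsSimpleModule (KLRAlg D) M := by
  classical
  have hm := mult_unique hC hM (h.trans (comb_single Z).symm)
  have hnt : Nontrivial M := by
    by_contra hnt
    rw [not_nontrivial_iff_subsingleton] at hnt
    obtain ⟨ν, hν⟩ := Z.exists_ne
    have h1 : (chr D n M ν : ℚ) = Z.1 ν := congrFun h ν
    have h2 : chr D n M ν ≠ 0 := by
      intro h3
      rw [h3] at h1
      exact hν (by exact_mod_cast h1.symm)
    have := hM.fd
    rw [chr_ne_zero_iff (chr_length h2)] at h2
    obtain ⟨u, hu⟩ := h2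
    exact hu (Subsingleton.elim _ _)
  obtain ⟨Z', _, f, hf⟩ := exists_quo hM
  have h1 := mult_quo hC hM f hf
  rw [hm] at h1
  have h2 : Z = cls Z' := by
    by_contra hne
    have h3 := DFunLike.congr_fun h1 (cls Z')
    rw [Finsupp.single_apply, if_neg hne, Finsupp.add_apply, Finsupp.single_eq_same] at h3
    omega
  have h3 : mult hC (hM.sub (LinearMap.ker f)) = 0 := by
    rw [← h2] at h1
    have h4 : 0 + Finsupp.single Z 1 = mult hC (hM.sub (LinearMap.ker f)) + Finsupp.single Z 1 := by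
      rw [zero_add]; exact h1
    exact (add_right_cancel h4).symm
  have h4 : LinearMap.ker f = ⊥ := by
    by_contra hne
    have hnt' : Nontrivial (LinearMap.ker f) := (Submodule.nontrivial_iff_ne_bot).2 hne
    have := (hM.sub (LinearMap.ker f)).fd
    obtain ⟨ν, hν⟩ := exists_chr_ne (n := n) (M := LinearMap.ker f) (hM.sub _).strand
    apply hν
    rw [chr_mult hC (hM.sub (LinearMap.ker f)), h3, Finsupp.sum_zero_index]
  have e : M ≃ₗ[KLRAlg D] Z'.M := LinearEquiv.ofBijective f ⟨LinearMap.ker_eq_bot.1 h4, hf⟩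
  exact IsSimpleModule.congr e

end

variable (hconv : S_conv D)

include hconv in
/-- the convolution product of two simple modules -/
theorem fd_conv (X Y : SMod D) : FdMod D (X.n + Y.n) (X.conv Y) :=
  (hconv X.n Y.n X.M Y.M X.smp.toFdMod Y.smp.toFdMod).1

/-- the character of a bundled module -/
noncomputable def _root_.Pool.Agent.KLS.SMod.chq (X : SMod D) : Sh I ℚ := fun w => (X.ch w : ℚ)

include hconv in
theorem chrQ_conv (X Y : SMod D) :
    chrQ D (X.n + Y.n) (X.conv Y) = X.chq * Y.chq :=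
  (hconv X.n Y.n X.M Y.M X.smp.toFdMod Y.smp.toFdMod).2

theorem chq_cls (X : SMod D) : chq (cls X) = X.chq := rfl

theorem chq_rep (X : Sm D) : X.rep.chq = chq X := by
  apply Sh.ext'
  intro w
  show (X.rep.ch w : ℚ) = (X.1 w : ℚ)
  rw [X.ch_rep]

/-- the multiplicities in the convolution product -/
noncomputable def co (X Y : Sm D) : Sm D →₀ ℕ := mult hC (fd_conv hconv X.rep Y.rep)

theorem chq_mul (X Y : Sm D) : chq X * chq Y = comb (co hC hconv X Y) := by
  rw [co, ← chrQ_mult, chrQ_conv hconv, chq_rep, chq_rep]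

include hC hconv in
theorem comm_iff (X Y : SMod D) : X.Comm Y ↔ ∃ Z : Sm D, X.chq * Y.chq = chq Z := by
  constructor
  · intro h
    refine ⟨cls ⟨X.n + Y.n, X.conv Y, ⟨fd_conv hconv X Y, h⟩⟩, ?_⟩
    rw [← chrQ_conv hconv]
    rfl
  · rintro ⟨Z, hZ⟩
    exact simple_of_chrQ hC (fd_conv hconv X Y) ((chrQ_conv hconv X Y).trans hZ)

include hC hconv in
theorem comm_rep_iff (X Y : Sm D) : X.rep.Comm Y.rep ↔ ∃ Z : Sm D, chq X * chq Y = chq Z := by
  rw [comm_iff hC hconv, chq_rep, chq_rep]

include hC hconv in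
/-- an isomorphism `X ∘ Y ≅ Z` from the characters -/
theorem iso_conv {X Y Z : Sm D} (h : chq X * chq Y = chq Z) :
    Nonempty (X.rep.conv Y.rep ≃ₗ[KLRAlg D] Z.rep.M) := by
  have hs : IsSimpleModule (KLRAlg D) (X.rep.conv Y.rep) := (comm_rep_iff hC hconv X Y).2 ⟨Z, h⟩
  set W : SMod D := ⟨X.rep.n + Y.rep.n, X.rep.conv Y.rep, ⟨fd_conv hconv X.rep Y.rep, hs⟩⟩ with hW
  have h1 : W.ch = Z.rep.ch := by
    funext ν
    have h2 : W.chq = chq Z := by
      rw [← h, ← chq_rep X, ← chq_rep Y, ← chrQ_conv hconv]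
      rfl
    have h3 : (W.ch ν : ℚ) = (Z.1 ν : ℚ) := congrFun h2 ν
    rw [Z.ch_rep]
    exact_mod_cast h3
  exact iso_rep hC h1

include hconv in
theorem conv_nontrivial (X Y : SMod D) : Nontrivial (X.conv Y) := by
  by_contra hnt
  rw [not_nontrivial_iff_subsingleton] at hnt
  obtain ⟨u, hu⟩ := X.exists_ch_ne
  obtain ⟨v, hv⟩ := Y.exists_ch_ne
  have h1 : (X.chq * Y.chq) (u ++ v) ≠ 0 := by
    refine (Sh.mul_ne_iff (f := X.chq) (g := Y.chq) (fun w => Nat.cast_nonneg _)
      (fun w => Nat.cast_nonneg _)).2 ⟨u, v, IsSh.append u v, ?_, ?_⟩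
    · show (X.ch u : ℚ) ≠ 0
      exact_mod_cast hu
    · show (Y.ch v : ℚ) ≠ 0
      exact_mod_cast hv
  rw [← chrQ_conv hconv, chrQ_apply] at h1
  have h2 : chr D (X.n + Y.n) (X.conv Y) (u ++ v) ≠ 0 := by exact_mod_cast h1
  have := (fd_conv hconv X Y).fd
  rw [chr_ne_zero_iff (chr_length h2)] at h2
  obtain ⟨z, hz⟩ := h2
  exact hz (Subsingleton.elim _ _)

include hconv in
/-- the words of a constituent of `X ∘ Y` are shuffles -/
theorem sh_of_subQ {X Y Z : SMod D} (h : SubQ D Z.M (X.conv Y)) {w : List I} (hw : Z.ch w ≠ 0) :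
    ∃ u v, IsSh w u v ∧ X.ch u ≠ 0 ∧ Y.ch v ≠ 0 := by
  have h1 := chr_le_of_subQ (fd_conv hconv X Y) h w
  have h2 : (X.chq * Y.chq) w ≠ 0 := by
    rw [← chrQ_conv hconv, chrQ_apply]
    have : chr D (X.n + Y.n) (X.conv Y) w ≠ 0 := by omega
    exact_mod_cast this
  obtain ⟨u, v, h3, h4, h5⟩ := Sh.exists_sh_of_mul_ne h2
  refine ⟨u, v, h3, ?_, ?_⟩
  · intro h6
    apply h4
    show (X.ch u : ℚ) = 0
    rw [h6]; rfl
  · intro h6
    apply h5
    show (Y.ch v : ℚ) = 0
    rw [h6]; rfl

include hconv in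
theorem eps_surj (i : I) (a : ℕ) {X : Sm D} (h : eps hC i X = 0) :
    ∃ Y, eps hC i Y = a ∧ E hC i Y = X := by
  have := conv_nontrivial hconv (Lp i a) X.rep
  obtain ⟨Z, _, hZ⟩ := exists_quo (fd_conv hconv (Lp i a) X.rep)
  have h1 := emax hC i X
  rw [h, E_of_eps hC h] at h1
  have h2 := hC.hd_Emax i a 0 X.rep X.rep Z h1 hZ
  rw [add_zero] at h2
  exact ⟨cls Z, eps_E_of_emax hC (h2.congr (ch_rep_cls Z).symm rfl)⟩

end Sm

end Pool.Agent.KLS
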