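import Pool.Agent.Work.MP_e487d8_al.Y.Fin.JH
import Pool.Agent.Work.MP_e487d8_al.Bd.B09
import Pool.Agent.Work.MP_e487d8_al.Bd.B02

/-! MP_e487d8_al, block Fin: the Grothendieck ring `Gr` (over `ℚ`, ungraded) as a subalgebra of the
shuffle ring, spanned by the characters of the simple modules. -/

set_option autoImplicit false

open Pool.Agent.E487.Hopf

namespace Pool.Agent.KLS

variable {K I : Type} [Field K] [Fintype I] [DecidableEq I] {D : Datum K I}

/-- the trivial module -/
noncomputable def SMod.un (D : Datum K I) : SMod D := ⟨0, Un D, Un.smp D⟩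

theorem SMod.ch_un (ν : List I) : (SMod.un D).ch ν = if ν = [] then 1 else 0 := by
  split_ifs with h
  · subst h
    show chr D 0 (Un D) [] = 1
    rw [chr_eq (by rfl)]
    have h1 : wordSp D (Un D) [] = ⊤ := by
      rw [eq_top_iff]
      intro u _
      rw [mem_wordSp, D.eW_nil, one_smul]
    rw [h1, finrank_top, Un.finrank_eq]
  · by_contra h1
    have h2 := (SMod.un D).ch_length h1
    exact h (List.eq_nil_of_length_eq_zero h2)

namespace Sm

/-- the class of the trivial module -/
noncomputable def one (D : Datum K I) : Sm D := cls (SMod.un D)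

theorem one_apply (ν : List I) : (one D).1 ν = if ν = [] then 1 else 0 := SMod.ch_un ν

theorem chq_one : chq (one D) = 1 := by
  apply Sh.ext'
  intro w
  show ((one D).1 w : ℚ) = _
  rw [one_apply]
  cases w with
  | nil => rw [if_pos rfl, Sh.one_nil, Nat.cast_one]
  | cons i w => rw [if_neg (by simp), Sh.one_cons, Nat.cast_zero]

theorem len_one : (one D).len = 0 := by
  have h : (one D).1 [] ≠ 0 := by rw [one_apply]; simp
  exact (length_of_ne h).symm

theorem eq_one_of_len {X : Sm D} (h : X.len = 0) : X = one D := by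
  have h1 : X.rep.Iso (one D).rep := SMod.iso_of_zero h len_one
  rw [← cls_rep X, ← cls_rep (one D)]
  exact Subtype.ext (SMod.ch_iso h1)

theorem hom_chq (X : Sm D) : Sh.Hom X.len (chq X) := by
  intro w hw
  refine length_of_ne fun h => hw ?_
  show (X.1 w : ℚ) = 0
  rw [h, Nat.cast_zero]

variable {Lp : I → ℕ → SMod D} (hC : CFacts D Lp) (hconv : S_conv D)

theorem comb_mem_span (m : Sm D →₀ ℕ) : comb m ∈ Submodule.span ℚ (Set.range (chq (D := D))) :=
  (Finsupp.mem_span_range_iff_exists_finsupp).2 ⟨_, rfl⟩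

/-- the Grothendieck ring -/
noncomputable def Gr : Subalgebra ℚ (Sh I ℚ) :=
  (Submodule.span ℚ (Set.range (chq (D := D)))).toSubalgebra
    (by rw [← chq_one (D := D)]; exact Submodule.subset_span ⟨_, rfl⟩)
    (by
      intro x y hx hy
      induction hx using Submodule.span_induction with
      | mem x hx =>
        obtain ⟨X, rfl⟩ := hx
        induction hy using Submodule.span_induction with
        | mem y hy =>
          obtain ⟨Y, rfl⟩ := hy
          rw [chq_mul hC hconv]
          exact comb_mem_span _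
        | zero => rw [mul_zero]; exact Submodule.zero_mem _
        | add y z _ _ hy hz => rw [mul_add]; exact Submodule.add_mem _ hy hz
        | smul c y _ hy => rw [mul_smul_comm]; exact Submodule.smul_mem _ _ hy
      | zero => rw [zero_mul]; exact Submodule.zero_mem _
      | add y z _ _ hy hz => rw [add_mul]; exact Submodule.add_mem _ hy hz
      | smul c y _ hy => rw [smul_mul_assoc]; exact Submodule.smul_mem _ _ hy)

theorem mem_Gr {f : Sh I ℚ} :
    f ∈ Gr hC hconv ↔ f ∈ Submodule.span ℚ (Set.range (chq (D := D))) := Iff.rfl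

theorem chq_mem (X : Sm D) : chq X ∈ Gr hC hconv := Submodule.subset_span ⟨_, rfl⟩

theorem comb_mem (m : Sm D →₀ ℕ) : comb m ∈ Gr hC hconv := comb_mem_span m

theorem Gr_induction {p : Sh I ℚ → Prop} (h : ∀ X : Sm D, p (chq X)) (h0 : p 0)
    (hadd : ∀ f g, p f → p g → p (f + g)) (hsmul : ∀ (c : ℚ) f, p f → p (c • f)) {f : Sh I ℚ}
    (hf : f ∈ Gr hC hconv) : p f := by
  have hf' : f ∈ Submodule.span ℚ (Set.range (chq (D := D))) := hf
  induction hf' using Submodule.span_induction with
  | mem x hx => obtain ⟨X, rfl⟩ := hx; exact h X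
  | zero => exact h0
  | add y z hy' hz' hy hz => exact hadd _ _ (hy hy') (hz hz')
  | smul c y hy' hy => exact hsmul _ _ (hy hy')

theorem L_chq_of_zero {X : Sm D} (h : X.len = 0) (i : I) : Sh.L i (chq X) = 0 := by
  apply Sh.ext'
  intro w
  rw [Sh.L_apply, Sh.zero_apply]
  by_contra h1
  have := hom_chq X _ h1
  rw [h, List.length_cons] at this
  omega

theorem R_chq_of_zero {X : Sm D} (h : X.len = 0) (i : I) : Sh.R i (chq X) = 0 := by
  apply Sh.ext'
  intro w
  rw [Sh.R_apply, Sh.zero_apply]
  by_contra h1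
  have := hom_chq X _ h1
  rw [h, List.length_append, List.length_singleton] at this
  omega

/-- `e_i X` as a module -/
theorem L_chq {X : Sm D} {n : ℕ} (h : X.rep.n = n + 1) (i : I) :
    Sh.L i (chq X) = chrQ D n (resL D X.rep.M i) := by
  apply Sh.ext'
  intro w
  rw [chrQ_apply, chr_resL, ← h, Sh.L_apply]
  show (X.1 (i :: w) : ℚ) = (X.rep.ch (i :: w) : ℚ)
  rw [X.ch_rep]

theorem R_chq {X : Sm D} {n : ℕ} (h : X.rep.n = n + 1) (i : I) :
    Sh.R i (chq X) = chrQ D n (resR D n X.rep.M i) := by
  apply Sh.ext'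
  intro w
  rw [chrQ_apply, chr_resR, ← h, Sh.R_apply]
  show (X.1 (w ++ [i]) : ℚ) = (X.rep.ch (w ++ [i]) : ℚ)
  rw [X.ch_rep]

include hC hconv in
theorem subBi : SubBi (Gr hC hconv) where
  hL f hf i := by
    refine Gr_induction hC hconv (p := fun f => Sh.L i f ∈ Gr hC hconv) ?_ ?_ ?_ ?_ hf
    · intro X
      rcases Nat.eq_zero_or_pos X.len with h | h
      · rw [L_chq_of_zero h]
        exact Subalgebra.zero_mem _
      · obtain ⟨n, hn⟩ : ∃ n, X.rep.n = n + 1 := ⟨X.len - 1, by show X.len = _; omega⟩
        have hfd : FdMod D (n + 1) X.rep.M := by rw [← hn]; exact X.rep.smp.toFdMod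
        rw [L_chq hn, chrQ_mult hC (fd_resL hfd i)]
        exact comb_mem hC hconv _
    · rw [map_zero]; exact Subalgebra.zero_mem _
    · intro f g hf hg
      rw [map_add]; exact Subalgebra.add_mem _ hf hg
    · intro c f hf
      rw [map_smul]; exact Subalgebra.smul_mem _ hf _
  hR f hf i := by
    refine Gr_induction hC hconv (p := fun f => Sh.R i f ∈ Gr hC hconv) ?_ ?_ ?_ ?_ hf
    · intro X
      rcases Nat.eq_zero_or_pos X.len with h | h
      · rw [R_chq_of_zero h]
        exact Subalgebra.zero_mem _
      · obtain ⟨n, hn⟩ : ∃ n, X.rep.n = n + 1 := ⟨X.len - 1, by show X.len = _; omega⟩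
        have hfd : FdMod D (n + 1) X.rep.M := by rw [← hn]; exact X.rep.smp.toFdMod
        rw [R_chq hn, chrQ_mult hC (fd_resR hfd i)]
        exact comb_mem hC hconv _
    · rw [map_zero]; exact Subalgebra.zero_mem _
    · intro f g hf hg
      rw [map_add]; exact Subalgebra.add_mem _ hf hg
    · intro c f hf
      rw [map_smul]; exact Subalgebra.smul_mem _ hf _
  hgr f hf n := by
    refine Gr_induction hC hconv (p := fun f => Sh.comp n f ∈ Gr hC hconv) ?_ ?_ ?_ ?_ hf
    · intro X
      by_cases h : X.len = n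
      · rw [Sh.comp_of_hom (h ▸ hom_chq X)]
        exact chq_mem hC hconv X
      · rw [Sh.comp_of_hom_ne (hom_chq X) h]
        exact Subalgebra.zero_mem _
    · rw [map_zero]; exact Subalgebra.zero_mem _
    · intro f g hf hg
      rw [map_add]; exact Subalgebra.add_mem _ hf hg
    · intro c f hf
      rw [map_smul]; exact Subalgebra.smul_mem _ hf _
  hfin f hf := by
    refine Gr_induction hC hconv (p := fun f => {w : List I | f w ≠ 0}.Finite) ?_ ?_ ?_ ?_ hf
    · intro X
      exact (List.finite_length_eq I X.len).subset fun w hw => hom_chq X w hw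
    · refine Set.finite_empty.subset ?_
      intro w hw
      exact absurd rfl hw
    · intro f g hf hg
      refine (hf.union hg).subset fun w hw => ?_
      by_contra h
      rw [Set.mem_union, not_or, Set.mem_ofPred_eq, Set.mem_ofPred_eq, not_not, not_not] at h
      apply hw
      rw [Sh.add_apply, h.1, h.2, add_zero]
    · intro c f hf
      refine hf.subset fun w hw => ?_
      intro h
      apply hw
      rw [Sh.smul_apply, h, mul_zero]

theorem isDomain_Gr : IsDomain (Gr hC hconv) := isDomain (subBi hC hconv)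

theorem ufd_Gr :
    haveI := isDomain_Gr hC hconv
    UniqueFactorizationMonoid (Gr hC hconv) := ufd (subBi hC hconv)

/-- the class of a simple module in the Grothendieck ring -/
noncomputable def gr (X : Sm D) : Gr hC hconv := ⟨chq X, chq_mem hC hconv X⟩

theorem gr_indep : LinearIndependent ℚ (gr hC hconv) := by
  have h := indep hC (D := D)
  have h1 : (chq (D := D)) = (Gr hC hconv).val.toLinearMap ∘ gr hC hconv := rfl
  rw [h1] at h
  exact LinearIndependent.of_comp _ h

theorem gr_span : ⊤ ≤ Submodule.span ℚ (Set.range (gr hC hconv)) := by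
  rintro ⟨f, hf⟩ _
  have hf' : f ∈ Submodule.span ℚ (Set.range (chq (D := D))) := hf
  rw [Finsupp.mem_span_range_iff_exists_finsupp] at hf' ⊢
  obtain ⟨c, hc⟩ := hf'
  refine ⟨c, Subtype.ext ?_⟩
  refine Eq.trans ?_ hc
  show (Gr hC hconv).val.toLinearMap (c.sum fun i a => a • gr hC hconv i) = _
  rw [map_finsuppSum]
  rfl

/-- the basis of the classes of the simple modules -/
noncomputable def bas : Module.Basis (Sm D) ℚ (Gr hC hconv) :=
  Module.Basis.mk (gr_indep hC hconv) (gr_span hC hconv)

theorem bas_apply (X : Sm D) : bas hC hconv X = gr hC hconv X := Module.Basis.mk_apply _ _ _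

end Sm

end Pool.Agent.KLS
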