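import Pool.Agent.Work.MP_e487d8_al.Y.Fin.Eps

/-! MP_e487d8_al, block Fin: the abstract system of the simple modules of a KLR algebra. -/

set_option autoImplicit false

open Pool.Agent.E487.Hopf

namespace Pool.Agent.KLS

variable {K I : Type} [Field K] [Fintype I] [DecidableEq I] {D : Datum K I}

namespace Sm

variable {Lp : I → ℕ → SMod D} (hC : CFacts D Lp) (hconv : S_conv D)
  {s s' : SMod D → SMod D → ℕ} (hR : RFacts D s s') (hG : GFacts D s s')

include hC hconv in
/-- an isomorphism `X ∘ Y ≅ Z` from the characters -/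
theorem iso_conv' {X Y Z : SMod D} (h : X.chq * Y.chq = Z.chq) :
    Nonempty (X.conv Y ≃ₗ[KLRAlg D] Z.M) := by
  have hs : IsSimpleModule (KLRAlg D) (X.conv Y) := (comm_iff hC hconv X Y).2 ⟨cls Z, h⟩
  set W : SMod D := ⟨X.n + Y.n, X.conv Y, ⟨fd_conv hconv X Y, hs⟩⟩ with hW
  have h1 : W.ch = Z.ch := by
    funext ν
    have h2 : W.chq = Z.chq := by
      rw [← h, ← chrQ_conv hconv]
      rfl
    have h3 : (W.ch ν : ℚ) = (Z.ch ν : ℚ) := congrFun h2 ν
    exact_mod_cast h3
  exact iso_rep hC h1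

include hC hconv in
theorem iso_un {Y Z : SMod D} (h : Y.ch = Z.ch) :
    Nonempty ((SMod.un D).conv Y ≃ₗ[KLRAlg D] Z.M) := by
  refine iso_conv' hC hconv ?_
  have h1 : (SMod.un D).chq = 1 := chq_one (D := D)
  rw [h1, one_mul]
  apply Sh.ext'
  intro w
  show (Y.ch w : ℚ) = (Z.ch w : ℚ)
  rw [h]

include hC hconv hR in
theorem s_congr {C Y Z : SMod D} (hCr : C.Real) (h : Y.ch = Z.ch) : s C Y = s C Z := by
  have h1 := hR.eq C (SMod.un D) Y Z hCr (iso_un hC hconv h)
  have h2 := hR.eq C (SMod.un D) Y Y hCr (iso_un hC hconv rfl)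
  omega

include hC hconv hR in
theorem s_congr' {C Y Z : SMod D} (hCr : C.Real) (h : Y.ch = Z.ch) : s' C Y = s' C Z := by
  have h1 := hR.eq' C (SMod.un D) Y Z hCr (iso_un hC hconv h)
  have h2 := hR.eq' C (SMod.un D) Y Y hCr (iso_un hC hconv rfl)
  omega

theorem gr_mul_iff {X Y Z : Sm D} :
    bas hC hconv X * bas hC hconv Y = bas hC hconv Z ↔ chq X * chq Y = chq Z := by
  rw [bas_apply, bas_apply, bas_apply, Subtype.ext_iff]
  rfl

theorem real_iff {C : Sm D} :
    (∃ Z, bas hC hconv C * bas hC hconv C = bas hC hconv Z) ↔ C.rep.Real := by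
  unfold SMod.Real
  rw [comm_rep_iff hC hconv]
  exact exists_congr fun Z => gr_mul_iff hC hconv

theorem comm_of {X Y Z : Sm D} (h : bas hC hconv X * bas hC hconv Y = bas hC hconv Z) :
    X.rep.Comm Y.rep := (comm_rep_iff hC hconv X Y).2 ⟨Z, (gr_mul_iff hC hconv).1 h⟩

theorem co_of_chq {X Y Z : Sm D} (h : chq X * chq Y = chq Z) :
    co hC hconv X Y = Finsupp.single Z 1 := by
  refine comb_inj hC ?_
  rw [← chq_mul, comb_single, h]

theorem co_comm (X Y : Sm D) : co hC hconv X Y = co hC hconv Y X := by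
  refine comb_inj hC ?_
  rw [← chq_mul, ← chq_mul, mul_comm]

theorem dd_add (C : SMod D) {X Y Z : SMod D} (h : ∀ i, Z.wt i = X.wt i + Y.wt i) :
    SMod.dd C Z = SMod.dd C X + SMod.dd C Y := by
  unfold SMod.dd
  rw [← Finset.sum_add_distrib]
  refine Finset.sum_congr rfl fun i _ => ?_
  rw [← Finset.sum_add_distrib]
  refine Finset.sum_congr rfl fun j _ => ?_
  split_ifs
  · rfl
  · rw [h]; ring

theorem dd_co {X Y Z : Sm D} (C : Sm D) (h : co hC hconv X Y Z ≠ 0) :
    SMod.dd C.rep Z.rep = SMod.dd C.rep X.rep + SMod.dd C.rep Y.rep :=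
  dd_add _ fun i => by
    rw [← wt_apply, wt_co hC hconv h]
    rfl

/-- `Λ(C, X)` -/
noncomputable def Lam (s : SMod D → SMod D → ℕ) (C X : Sm D) : ℤ :=
  (SMod.dd C.rep X.rep : ℤ) - 2 * s C.rep X.rep

/-- the head of `C ∘ X` -/
noncomputable def nab (C X : Sm D) : Sm D :=
  open Classical in if h : C.rep.Real then cls (hR.hd C.rep X.rep h).choose else C

/-- the head of `X ∘ C` -/
noncomputable def nab' (C X : Sm D) : Sm D :=
  open Classical in if h : C.rep.Real then cls (hR.hd' C.rep X.rep h).choose else C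

include hC in
theorem nab_quo {C : Sm D} (h : C.rep.Real) (X : Sm D) :
    Quo D (nab hR C X).rep.M (C.rep.conv X.rep) := by
  have h1 : nab hR C X = cls (hR.hd C.rep X.rep h).choose := dif_pos h
  rw [h1]
  obtain ⟨f, hf, _⟩ := (hR.hd C.rep X.rep h).choose_spec
  exact quo_congr' (iso_rep hC (ch_rep_cls _)).symm ⟨f, hf⟩

include hC in
theorem nab'_quo {C : Sm D} (h : C.rep.Real) (X : Sm D) :
    Quo D (nab' hR C X).rep.M (X.rep.conv C.rep) := by
  have h1 : nab' hR C X = cls (hR.hd' C.rep X.rep h).choose := dif_pos h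
  rw [h1]
  obtain ⟨f, hf, _⟩ := (hR.hd' C.rep X.rep h).choose_spec
  exact quo_congr' (iso_rep hC (ch_rep_cls _)).symm ⟨f, hf⟩

include hG in
theorem nab_spec {C : Sm D} (h : C.rep.Real) (X : Sm D) :
    co hC hconv C X (nab hR C X) = 1 ∧ Lam s C (nab hR C X) = Lam s C X ∧
      ∀ Z, co hC hconv C X Z ≠ 0 → Z ≠ nab hR C X → Lam s C Z < Lam s C X := by
  classical
  obtain ⟨H, h1, f, hf, h2, h3⟩ : ∃ H : SMod D, nab hR C X = cls H ∧
      ∃ f : C.rep.conv X.rep →ₗ[KLRAlg D] H.M, Function.Surjective f ∧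
        s C.rep H = s C.rep C.rep + s C.rep X.rep ∧ ∀ Z : SMod D, SubQ D Z.M (LinearMap.ker f) →
          s C.rep C.rep + s C.rep X.rep < s C.rep Z :=
    ⟨_, dif_pos h, (hR.hd C.rep X.rep h).choose_spec⟩
  have hself := hG.self C.rep h
  have hfd := fd_conv hconv C.rep X.rep
  have hm : co hC hconv C X = mult hC (hfd.sub (LinearMap.ker f)) + Finsupp.single (cls H) 1 :=
    mult_quo hC hfd f hf
  have hlt : ∀ Z, mult hC (hfd.sub (LinearMap.ker f)) Z ≠ 0 →
      s C.rep C.rep + s C.rep X.rep < s C.rep Z.rep := fun Z hZ =>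
    h3 Z.rep (subQ_of_mult hC (hfd.sub (LinearMap.ker f)) hZ)
  have hsH : s C.rep (cls H).rep = s C.rep C.rep + s C.rep X.rep := by
    rw [← h2]
    exact s_congr hC hconv hR h (ch_rep_cls H)
  have h0 : mult hC (hfd.sub (LinearMap.ker f)) (cls H) = 0 := by
    by_contra hne
    have h4 := hlt _ hne
    omega
  have hco : co hC hconv C X (cls H) = 1 := by
    rw [hm, Finsupp.add_apply, h0, Finsupp.single_eq_same]
  refine ⟨by rw [h1, hco], ?_, ?_⟩
  · rw [h1]
    unfold Lam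
    rw [dd_co hC hconv C (Z := cls H) (by rw [hco]; exact one_ne_zero), hsH]
    push_cast
    have : (2 : ℤ) * s C.rep C.rep = SMod.dd C.rep C.rep := by exact_mod_cast hself
    linarith
  · intro Z hZ hne
    unfold Lam
    rw [dd_co hC hconv C hZ]
    rw [h1] at hne
    have h5 : mult hC (hfd.sub (LinearMap.ker f)) Z ≠ 0 := by
      rw [hm, Finsupp.add_apply, Finsupp.single_apply, if_neg (Ne.symm hne), add_zero] at hZ
      exact hZ
    have h6 := hlt Z h5
    have h7 : (2 : ℤ) * s C.rep C.rep = SMod.dd C.rep C.rep := by exact_mod_cast hself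
    have h8 : (s C.rep C.rep : ℤ) + s C.rep X.rep < s C.rep Z.rep := by exact_mod_cast h6
    push_cast
    linarith

include hG in
theorem nab'_spec {C : Sm D} (h : C.rep.Real) (X : Sm D) :
    co hC hconv C X (nab' hR C X) = 1 ∧ Lam s' C (nab' hR C X) = Lam s' C X ∧
      ∀ Z, co hC hconv C X Z ≠ 0 → Z ≠ nab' hR C X → Lam s' C Z < Lam s' C X := by
  classical
  obtain ⟨H, h1, f, hf, h2, h3⟩ : ∃ H : SMod D, nab' hR C X = cls H ∧
      ∃ f : X.rep.conv C.rep →ₗ[KLRAlg D] H.M, Function.Surjective f ∧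
        s' C.rep H = s' C.rep C.rep + s' C.rep X.rep ∧ ∀ Z : SMod D, SubQ D Z.M (LinearMap.ker f) →
          s' C.rep C.rep + s' C.rep X.rep < s' C.rep Z :=
    ⟨_, dif_pos h, (hR.hd' C.rep X.rep h).choose_spec⟩
  have hself := hG.self' C.rep h
  have hfd := fd_conv hconv X.rep C.rep
  have hm : co hC hconv C X = mult hC (hfd.sub (LinearMap.ker f)) + Finsupp.single (cls H) 1 := by
    rw [co_comm]
    exact mult_quo hC hfd f hf
  have hlt : ∀ Z, mult hC (hfd.sub (LinearMap.ker f)) Z ≠ 0 →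
      s' C.rep C.rep + s' C.rep X.rep < s' C.rep Z.rep := fun Z hZ =>
    h3 Z.rep (subQ_of_mult hC (hfd.sub (LinearMap.ker f)) hZ)
  have hsH : s' C.rep (cls H).rep = s' C.rep C.rep + s' C.rep X.rep := by
    rw [← h2]
    exact s_congr' hC hconv hR h (ch_rep_cls H)
  have h0 : mult hC (hfd.sub (LinearMap.ker f)) (cls H) = 0 := by
    by_contra hne
    have h4 := hlt _ hne
    omega
  have hco : co hC hconv C X (cls H) = 1 := by
    rw [hm, Finsupp.add_apply, h0, Finsupp.single_eq_same]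
  refine ⟨by rw [h1, hco], ?_, ?_⟩
  · rw [h1]
    unfold Lam
    rw [dd_co hC hconv C (Z := cls H) (by rw [hco]; exact one_ne_zero), hsH]
    push_cast
    have : (2 : ℤ) * s' C.rep C.rep = SMod.dd C.rep C.rep := by exact_mod_cast hself
    linarith
  · intro Z hZ hne
    unfold Lam
    rw [dd_co hC hconv C hZ]
    rw [h1] at hne
    have h5 : mult hC (hfd.sub (LinearMap.ker f)) Z ≠ 0 := by
      rw [hm, Finsupp.add_apply, Finsupp.single_apply, if_neg (Ne.symm hne), add_zero] at hZ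
      exact hZ
    have h6 := hlt Z h5
    have h7 : (2 : ℤ) * s' C.rep C.rep = SMod.dd C.rep C.rep := by exact_mod_cast hself
    have h8 : (s' C.rep C.rep : ℤ) + s' C.rep X.rep < s' C.rep Z.rep := by exact_mod_cast h6
    push_cast
    linarith

theorem eq_of_iso {X Y : Sm D} (h : X.rep.Iso Y.rep) : X = Y := by
  rw [← cls_rep X, ← cls_rep Y]
  exact Subtype.ext (SMod.ch_iso h)

include hC hconv in
theorem comm_symm {X Y : SMod D} (h : X.Comm Y) : Y.Comm X := by
  rw [comm_iff hC hconv] at h ⊢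
  obtain ⟨Z, hZ⟩ := h
  exact ⟨Z, by rw [mul_comm]; exact hZ⟩

theorem pr_eq (i : I) (X : Sm D) :
    SMod.pr i X.rep = (wt X).sum fun j n => D.A i j * (n : ℤ) := by
  unfold SMod.pr
  rw [Finsupp.sum_fintype]
  · rfl
  · intro j; simp

end Sm

end Pool.Agent.KLS
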