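import Pool.Agent.Work.MP_e487d8_al.Y.Mod.Word

/-! MP_e487d8_al, block Fin: the word idempotents and characters. -/

set_option autoImplicit false

namespace Pool.Agent.KLS

variable {K I : Type} [Field K] [Fintype I] [DecidableEq I]

namespace Datum

variable (D : Datum K I)

theorem e_eW (k : ℕ) (j : I) (ν : List I) : D.e k j * D.eW ν = D.eW ν * D.e k j := by
  induction ν generalizing k with
  | nil => rw [eW_nil, one_mul, mul_one]
  | cons i ν ih =>
    rw [eW_cons]
    cases k with
    | zero =>
      rw [← mul_assoc, D.e_comm 0 0 j i, mul_assoc, e0_shn, mul_assoc]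
    | succ k =>
      have h : D.e (k + 1) j = D.shn 1 (D.e k j) := by rw [shn_e, add_comm]
      rw [← mul_assoc, D.e_comm (k + 1) 0 j i, mul_assoc, h, ← map_mul, ih, map_mul, mul_assoc]

theorem x_eW (k : ℕ) (ν : List I) : D.x k * D.eW ν = D.eW ν * D.x k := by
  induction ν generalizing k with
  | nil => rw [eW_nil, one_mul, mul_one]
  | cons i ν ih =>
    rw [eW_cons, ← mul_assoc, D.x_e k 0 i, mul_assoc, mul_assoc]
    cases k with
    | zero =>
      have h := D.tr_mul_shn (le_refl 1) (D.x 0) (D.eW ν)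
      rw [tr_x, if_pos (by norm_num)] at h
      rw [h]
    | succ k =>
      have h : D.x (k + 1) = D.shn 1 (D.x k) := by rw [shn_x, add_comm]
      rw [h, ← map_mul, ih, map_mul]

/-- exchange of the letters number `k` and `k + 1` -/
def _root_.Pool.Agent.KLS.sw : ℕ → List I → List I
  | 0, i :: j :: ν => j :: i :: ν
  | k + 1, i :: ν => i :: sw k ν
  | _, ν => ν

omit [Fintype I] [DecidableEq I] in
theorem _root_.Pool.Agent.KLS.sw_perm (k : ℕ) (ν : List I) : (sw k ν).Perm ν := by
  induction ν generalizing k with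
  | nil => cases k <;> exact List.Perm.refl _
  | cons i ν ih =>
    cases k with
    | zero =>
      cases ν with
      | nil => exact List.Perm.refl _
      | cons j ν => exact List.Perm.swap i j ν
    | succ k => exact (ih k).cons i

theorem t_eW (k : ℕ) (ν : List I) (h : k + 1 < ν.length) :
    D.t k * D.eW ν = D.eW (sw k ν) * D.t k := by
  induction ν generalizing k with
  | nil => simp at h
  | cons i ν ih =>
    cases k with
    | zero =>
      cases ν with
      | nil => simp at h
      | cons j ν =>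
        show D.t 0 * D.eW (i :: j :: ν) = D.eW (j :: i :: ν) * D.t 0
        rw [eW_cons, eW_cons, eW_cons, eW_cons, map_mul, map_mul, shn_e, shn_e, shn_shn]
        have h1 : D.t 0 * D.shn 2 (D.eW ν) = D.shn 2 (D.eW ν) * D.t 0 := by
          have h := D.tr_mul_shn (le_refl 2) (D.t 0) (D.eW ν)
          rwa [tr_t, if_pos (by norm_num)] at h
        have h2 := D.t_e0 0 i
        have h3 := D.t_e1 0 j
        rw [zero_add] at h2 h3
        show D.t 0 * (D.e 0 i * (D.e 1 j * D.shn 2 (D.eW ν))) =
          D.e 0 j * (D.e 1 i * D.shn 2 (D.eW ν)) * D.t 0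
        rw [← mul_assoc, h2, mul_assoc, ← mul_assoc (D.t 0), h3, mul_assoc, h1]
        simp only [← mul_assoc]
        rw [D.e_comm 1 0 i j]
    | succ k =>
      show D.t (k + 1) * D.eW (i :: ν) = D.eW (i :: sw k ν) * D.t (k + 1)
      have h1 : D.t (k + 1) = D.shn 1 (D.t k) := by rw [shn_t, add_comm]
      rw [eW_cons, eW_cons, ← mul_assoc, D.t_e (k + 1) 0 i (by omega) (by omega), mul_assoc, h1,
        ← map_mul, ih k (by simpa using h), map_mul, mul_assoc]

theorem eW_snoc (ν : List I) (i : I) : D.eW (ν ++ [i]) = D.eW ν * D.e ν.length i := by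
  rw [eW_append, eW_cons, eW_nil, map_one, mul_one, shn_e, add_zero]

end Datum

section modules

variable {D : Datum K I} {n : ℕ} {M N : Type} [AddCommGroup M] [Module K M]
  [Module (KLRAlg D) M] [IsScalarTower K (KLRAlg D) M]
  [AddCommGroup N] [Module K N] [Module (KLRAlg D) N] [IsScalarTower K (KLRAlg D) N]

theorem mem_wordSp {ν : List I} {u : M} : u ∈ wordSp D M ν ↔ D.eW ν • u = u := by
  constructor
  · rintro ⟨v, rfl⟩
    show D.eW ν • (D.eW ν • v) = D.eW ν • v
    rw [← mul_smul, D.eW_idem]
  · intro h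
    exact ⟨u, h⟩

theorem smul_mem_wordSp (ν : List I) (u : M) : D.eW ν • u ∈ wordSp D M ν := ⟨u, rfl⟩

omit [Module K M] [IsScalarTower K (KLRAlg D) M] in
theorem exists_word : ∀ {n : ℕ} {M : Type} [AddCommGroup M] [Module K M] [Module (KLRAlg D) M]
    [IsScalarTower K (KLRAlg D) M], IsStrand D n M → ∀ u : M, u ≠ 0 →
    ∃ ν : List I, ν.length = n ∧ D.eW ν • u ≠ 0 := by
  intro n
  induction n with
  | zero =>
    intro M _ _ _ _ _ u hu
    exact ⟨[], rfl, by rwa [D.eW_nil, one_smul]⟩
  | succ n ih =>
    intro M _ _ _ _ hM u hu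
    have h1 : ∃ i, D.e 0 i • u ≠ 0 := by
      by_contra h
      push Not at h
      have h2 := hM.one 0 (Nat.succ_pos n) u
      rw [Datum.E, Finset.sum_smul, Finset.sum_eq_zero (fun i _ => h i)] at h2
      exact hu h2.symm
    obtain ⟨i, hi⟩ := h1
    have hT : IsStrand D n (Tw (D.shn 1) M) :=
      { one := fun k hk v => by
          obtain ⟨v, rfl⟩ := (Tw.mk (D.shn 1)).surjective v
          rw [Tw.smul_mk, D.shn_E, hM.one (1 + k) (by omega)]
        zero := fun k hk j v => by
          obtain ⟨v, rfl⟩ := (Tw.mk (D.shn 1)).surjective v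
          rw [Tw.smul_mk, D.shn_e, hM.zero (1 + k) (by omega), map_zero] }
    obtain ⟨ν, h3, h4⟩ := ih hT (Tw.mk (D.shn 1) (D.e 0 i • u)) (by
      intro h
      exact hi ((LinearEquiv.map_eq_zero_iff (Tw.mk (D.shn 1))).1 h))
    refine ⟨i :: ν, by rw [List.length_cons, h3], ?_⟩
    rw [Tw.smul_mk] at h4
    intro h5
    apply h4
    rw [D.eW_cons, D.e0_shn, mul_smul] at h5
    rw [h5, map_zero]

theorem chr_eq {ν : List I} (h : ν.length = n) : chr D n M ν = Module.finrank K (wordSp D M ν) :=
  if_pos h

theorem chr_of_ne {ν : List I} (h : ν.length ≠ n) : chr D n M ν = 0 := if_neg h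

theorem chr_length {ν : List I} (h : chr D n M ν ≠ 0) : ν.length = n := by
  by_contra h1
  exact h (chr_of_ne h1)

theorem chr_ne_zero_iff [FiniteDimensional K M] {ν : List I} (h : ν.length = n) :
    chr D n M ν ≠ 0 ↔ ∃ u : M, D.eW ν • u ≠ 0 := by
  rw [chr_eq h, Ne, Submodule.finrank_eq_zero, Submodule.eq_bot_iff]
  push Not
  constructor
  · rintro ⟨u, hu, hu0⟩
    exact ⟨u, by rwa [mem_wordSp.1 hu]⟩
  · rintro ⟨u, hu⟩
    exact ⟨_, smul_mem_wordSp ν u, hu⟩

theorem exists_chr_ne [FiniteDimensional K M] [Nontrivial M] (hM : IsStrand D n M) :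
    ∃ ν, chr D n M ν ≠ 0 := by
  obtain ⟨u, hu⟩ := exists_ne (0 : M)
  obtain ⟨ν, h1, h2⟩ := exists_word hM u hu
  exact ⟨ν, (chr_ne_zero_iff h1).2 ⟨u, h2⟩⟩

theorem chr_congr (f : M ≃ₗ[KLRAlg D] N) : chr D n M = chr D n N := by
  funext ν
  by_cases h : ν.length = n
  · rw [chr_eq h, chr_eq h]
    have h1 : (wordSp D M ν).map (Conv.toK f.toLinearMap) = wordSp D N ν := by
      ext v
      constructor
      · rintro ⟨u, hu, rfl⟩
        rw [mem_wordSp]
        show D.eW ν • f u = f u
        rw [← map_smul, mem_wordSp.1 hu]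
      · intro hv
        refine ⟨f.symm v, ?_, f.apply_symm_apply v⟩
        show f.symm v ∈ wordSp D M ν
        rw [mem_wordSp, ← map_smul, mem_wordSp.1 hv]
    rw [← h1]
    exact (LinearEquiv.finrank_eq (Submodule.equivMapOfInjective (Conv.toK f.toLinearMap)
      f.injective (wordSp D M ν)))
  · rw [chr_of_ne h, chr_of_ne h]

theorem chr_add [FiniteDimensional K M] (P : Submodule (KLRAlg D) M) (ν : List I) :
    chr D n M ν = chr D n P ν + chr D n (M ⧸ P) ν := by
  by_cases h : ν.length = n
  · rw [chr_eq h, chr_eq h, chr_eq h]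
    set f : wordSp D M ν →ₗ[K] (M ⧸ P) := (Conv.toK P.mkQ).comp (wordSp D M ν).subtype with hf
    have h1 : LinearMap.range f = wordSp D (M ⧸ P) ν := by
      ext v
      constructor
      · rintro ⟨⟨u, hu⟩, rfl⟩
        rw [mem_wordSp]
        show D.eW ν • P.mkQ u = P.mkQ u
        rw [← map_smul, mem_wordSp.1 hu]
      · intro hv
        obtain ⟨u, rfl⟩ := P.mkQ_surjective v
        refine ⟨⟨D.eW ν • u, smul_mem_wordSp ν u⟩, ?_⟩
        show P.mkQ (D.eW ν • u) = P.mkQ u
        rw [map_smul]
        exact mem_wordSp.1 hv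
    have h2 : Module.finrank K (LinearMap.ker f) = Module.finrank K (wordSp D P ν) := by
      symm
      set g : wordSp D P ν →ₗ[K] wordSp D M ν :=
        LinearMap.codRestrict (wordSp D M ν)
          ((Conv.toK P.subtype).comp (wordSp D P ν).subtype) (fun u => by
            rw [mem_wordSp]
            have := mem_wordSp.1 u.2
            show D.eW ν • ((u : P) : M) = ((u : P) : M)
            exact congrArg Subtype.val this) with hg
      have hginj : Function.Injective g := by
        intro u v huv
        have h3 : ((u : P) : M) = ((v : P) : M) :=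
          congrArg (fun z : wordSp D M ν => (z : M)) huv
        exact Subtype.ext (Subtype.ext h3)
      have hgr : LinearMap.range g = LinearMap.ker f := by
        ext u
        constructor
        · rintro ⟨v, rfl⟩
          show P.mkQ ((v : P) : M) = 0
          rw [Submodule.mkQ_apply, Submodule.Quotient.mk_eq_zero]
          exact (v : P).2
        · intro hu
          have h3 : P.mkQ (u : M) = 0 := hu
          rw [Submodule.mkQ_apply, Submodule.Quotient.mk_eq_zero] at h3
          refine ⟨⟨⟨u, h3⟩, ?_⟩, Subtype.ext rfl⟩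
          rw [mem_wordSp]
          exact Subtype.ext (mem_wordSp.1 u.2)
      rw [← LinearMap.finrank_range_of_inj hginj, hgr]
    have h3 := LinearMap.finrank_range_add_finrank_ker f
    rw [h1, h2] at h3
    omega
  · rw [chr_of_ne h, chr_of_ne h, chr_of_ne h]

end modules

end Pool.Agent.KLS
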